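import Pool.Agent.Helper76.CV.Goals

/-!
# CV-SMH (packet 14715): smoothness of the equations
-/

set_option autoImplicit false

open scoped ContDiff
open Filter Topology

namespace Pool.Agent.Helper55.CV.SMH

open Pool.Agent.Helper76.CV

variable {r : ℕ}

theorem coord (i : Fin (r + 3)) : ContDiff ℝ ∞ (fun x : ℝ × E (r + 3) => x.2 i) :=
  contDiff_euclidean.1 contDiff_snd i

theorem qA_smooth (D : Dat r) (hD : Good D) : ContDiff ℝ ∞ (qA D) := by
  unfold qA
  have hθ : ContDiff ℝ ∞ (fun x : ℝ × E (r + 3) => D.θ x.1) := hD.sθ.comp contDiff_fst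
  refine ((((coord 1).sub (contDiff_const.mul (Real.contDiff_cos.comp hθ))).pow 2).add
    (((coord 0).sub (contDiff_const.mul (Real.contDiff_sin.comp hθ))).pow 2)).add ?_
  refine ContDiff.sum fun j _ => ?_
  exact ((hD.sα j).comp contDiff_fst).mul ((coord _).pow 2)

theorem qB_smooth (D : Dat r) (hD : Good D) : ContDiff ℝ ∞ (qB D) := by
  unfold qB
  refine ((((((contDiff_const.mul (coord 1)).add (contDiff_const.mul (coord 2))).div_const 13).sub
    contDiff_const).pow 2).add ((coord 0).pow 2)).add ?_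
  refine ContDiff.sum fun j _ => ?_
  exact (contDiff_const.sub ((hD.sα j).comp contDiff_fst)).mul ((coord _).pow 2)

theorem qA_nonneg (D : Dat r) (hD : Good D) (x : ℝ × E (r + 3)) : 0 ≤ qA D x := by
  unfold qA
  have : 0 ≤ ∑ j : Fin r, D.α j x.1 * (x.2 j.succ.succ.succ) ^ 2 :=
    Finset.sum_nonneg fun j _ => mul_nonneg (hD.α0 j _) (sq_nonneg _)
  positivity

theorem qB_nonneg (D : Dat r) (hD : Good D) (x : ℝ × E (r + 3)) : 0 ≤ qB D x := by
  unfold qB
  have : 0 ≤ ∑ j : Fin r, (1 - D.α j x.1) * (x.2 j.succ.succ.succ) ^ 2 :=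
    Finset.sum_nonneg fun j _ => mul_nonneg (sub_nonneg.2 (hD.α1 j _)) (sq_nonneg _)
  positivity

theorem t (h1 : ZP) (h2 : KAP) : Pool.Agent.Helper76.CV.SMH := by
  intro r D hD
  have hA : ContDiff ℝ ∞ (ZA D) := by
    rw [contDiff_iff_contDiffAt]
    intro x
    exact (h1.1 _ (qA_nonneg D hD x)).comp x (qA_smooth D hD).contDiffAt
  have hB : ContDiff ℝ ∞ (ZB D) := by
    have : ContDiff ℝ ∞ (fun x : ℝ × E (r + 3) => Z (qB D x)) := by
      rw [contDiff_iff_contDiffAt]
      intro x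
      exact (h1.1 _ (qB_nonneg D hD x)).comp x (qB_smooth D hD).contDiffAt
    exact (hD.sβ.comp contDiff_fst).mul this
  have hU : ContDiff ℝ ∞ (U D) := by
    unfold U
    exact (contDiff_const.sub (contDiff_snd.norm_sq ℝ)).sub (hD.sC.comp contDiff_fst)
  refine ⟨hA, hB, hU, ?_⟩
  unfold H
  have hs : ContDiff ℝ ∞ (fun p : V r => p.2) := contDiff_snd
  have hx : ContDiff ℝ ∞ (fun p : V r => p.1) := contDiff_fst
  refine ContDiff.prodMk ?_ ?_
  · exact (Real.contDiff_cos.comp hs).sub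
      (Real.contDiff_exp.comp (contDiff_const.mul (hU.comp hx)).neg)
  · exact (hs.sub ((h2.1.comp hs).mul (hA.comp hx))).add ((h2.1.comp hs.neg).mul (hB.comp hx))

end Pool.Agent.Helper55.CV.SMH
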